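import Mathlib

set_option autoImplicit false

namespace Pool.Agent.Results.MP_a1107e_nt.ExponentBound

/-- The `x`-coordinate of the large point, for `t = 2 n + 1`
(`4 x = t ^ 10 + 4 t ^ 8 + 10 t ^ 6 + 20 t ^ 4 + 17 t ^ 2 + 8`). -/
def px (n : ℤ) : ℤ :=
  256 * n ^ 10 + 1280 * n ^ 9 + 3136 * n ^ 8 + 4864 * n ^ 7 + 5312 * n ^ 6 + 4288 * n ^ 5 +
    2640 * n ^ 4 + 1248 * n ^ 3 + 444 * n ^ 2 + 108 * n + 15

/-- The `y`-coordinate of the large point, for `t = 2 n + 1`. -/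
def py (n : ℤ) : ℤ :=
  4096 * n ^ 15 + 30720 * n ^ 14 + 113664 * n ^ 13 + 272896 * n ^ 12 + 474624 * n ^ 11 +
    633600 * n ^ 10 + 672384 * n ^ 9 + 580032 * n ^ 8 + 412416 * n ^ 7 + 243200 * n ^ 6 +
    118752 * n ^ 5 + 47472 * n ^ 4 + 15176 * n ^ 3 + 3708 * n ^ 2 + 630 * n + 57

lemma identity (n : ℤ) :
    (py n) ^ 2 = (px n) ^ 3 + (-(2 * (2 * n + 1) ^ 2 + 7)) * (px n) + 3 * ((2 * n + 1) ^ 2 + 2) := by
  unfold px py
  ring

lemma disc_ne (n : ℤ) (hn : 1 ≤ n) :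
    4 * (-(2 * (2 * n + 1) ^ 2 + 7)) ^ 3 + 27 * (3 * ((2 * n + 1) ^ 2 + 2)) ^ 2 ≠ 0 := by
  have h : 4 * (-(2 * (2 * n + 1) ^ 2 + 7)) ^ 3 + 27 * (3 * ((2 * n + 1) ^ 2 + 2)) ^ 2 < 0 := by
    have h1 : (9 : ℤ) ≤ (2 * n + 1) ^ 2 := by nlinarith
    generalize (2 * n + 1) ^ 2 = w at h1 ⊢
    nlinarith [mul_nonneg (by linarith : (0 : ℤ) ≤ w - 9) (by positivity : (0 : ℤ) ≤ w ^ 2),
      mul_nonneg (by linarith : (0 : ℤ) ≤ w - 9) (by linarith : (0 : ℤ) ≤ w)]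
  exact h.ne

lemma py_lower (n : ℤ) (hn : 1 ≤ n) : 4096 * n ^ 15 ≤ py n := by
  unfold py
  have h0 : (0 : ℤ) ≤ n := by linarith
  have : 0 ≤ 30720 * n ^ 14 + 113664 * n ^ 13 + 272896 * n ^ 12 + 474624 * n ^ 11 +
    633600 * n ^ 10 + 672384 * n ^ 9 + 580032 * n ^ 8 + 412416 * n ^ 7 + 243200 * n ^ 6 +
    118752 * n ^ 5 + 47472 * n ^ 4 + 15176 * n ^ 3 + 3708 * n ^ 2 + 630 * n + 57 := by positivity
  linarith

lemma max_upper (n : ℤ) (hn : 1 ≤ n) :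
    max |(-(2 * (2 * n + 1) ^ 2 + 7))| |3 * ((2 * n + 1) ^ 2 + 2)| ≤ 33 * n ^ 2 := by
  apply max_le
  · rw [abs_neg, abs_of_nonneg (by positivity)]
    nlinarith
  · rw [abs_of_nonneg (by positivity)]
    nlinarith

/-- For every `K` and every `M < 15/2` the inequality of the Hall-Lang conjecture fails. -/
theorem result : ∀ K M : ℝ, M < 15 / 2 →
    ∃ A B x y : ℤ, 4 * A ^ 3 + 27 * B ^ 2 ≠ 0 ∧ y ^ 2 = x ^ 3 + A * x + B ∧
      K * ((max |A| |B| : ℤ) : ℝ) ^ M < ((max |x| |y| : ℤ) : ℝ) := by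
  intro K M hM
  -- replace `M` by a nonnegative exponent
  set M' : ℝ := max M 0 with hM'
  have hM'0 : 0 ≤ M' := le_max_right _ _
  have hM'1 : M' < 15 / 2 := max_lt hM (by norm_num)
  have hlim : Filter.Tendsto (fun n : ℕ => ((n : ℝ)) ^ (15 - 2 * M')) Filter.atTop Filter.atTop :=
    (tendsto_rpow_atTop (by linarith)).comp tendsto_natCast_atTop_atTop
  obtain ⟨n, hn1, hn⟩ := ((Filter.eventually_ge_atTop 1).and
    (hlim.eventually_gt_atTop (|K| * 33 ^ M'))).exists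
  refine ⟨-(2 * (2 * (n : ℤ) + 1) ^ 2 + 7), 3 * ((2 * (n : ℤ) + 1) ^ 2 + 2), px n, py n,
    disc_ne n (by exact_mod_cast hn1), identity n, ?_⟩
  have hn1' : (1 : ℤ) ≤ n := by exact_mod_cast hn1
  have hnR : (1 : ℝ) ≤ n := by exact_mod_cast hn1
  set H : ℤ := max |(-(2 * (2 * (n : ℤ) + 1) ^ 2 + 7))| |3 * ((2 * (n : ℤ) + 1) ^ 2 + 2)| with hH
  have hH1 : (1 : ℝ) ≤ (H : ℝ) := by
    have : (1 : ℤ) ≤ H := by
      refine le_trans ?_ (le_max_right _ _)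
      rw [abs_of_nonneg (by positivity)]
      nlinarith
    exact_mod_cast this
  have hH2 : (H : ℝ) ≤ 33 * (n : ℝ) ^ 2 := by exact_mod_cast max_upper n hn1'
  have hy : (4096 : ℝ) * (n : ℝ) ^ 15 ≤ ((max |px n| |py n| : ℤ) : ℝ) := by
    have h1 := py_lower n hn1'
    have h2 : py n ≤ max |px n| |py n| := (le_abs_self _).trans (le_max_right _ _)
    exact_mod_cast h1.trans h2
  calc K * (H : ℝ) ^ M ≤ |K| * (H : ℝ) ^ M' := by
        apply mul_le_mul (le_abs_self K) (Real.rpow_le_rpow_of_exponent_le hH1 (le_max_left _ _))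
          (by positivity) (abs_nonneg K)
    _ ≤ |K| * (33 * (n : ℝ) ^ 2) ^ M' := by
        apply mul_le_mul_of_nonneg_left _ (abs_nonneg K)
        exact Real.rpow_le_rpow (by linarith) hH2 hM'0
    _ = |K| * 33 ^ M' * (n : ℝ) ^ (2 * M') := by
        rw [Real.mul_rpow (by norm_num) (by positivity), ← Real.rpow_natCast, ← Real.rpow_mul
          (by positivity)]
        push_cast
        ring
    _ < (n : ℝ) ^ (15 - 2 * M') * (n : ℝ) ^ (2 * M') := by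
        apply mul_lt_mul_of_pos_right hn
        positivity
    _ = (n : ℝ) ^ 15 := by
        rw [← Real.rpow_add (by linarith), sub_add_cancel]
        norm_cast
    _ ≤ 4096 * (n : ℝ) ^ 15 := by
        have : (0 : ℝ) ≤ (n : ℝ) ^ 15 := by positivity
        linarith
    _ ≤ _ := hy

end Pool.Agent.Results.MP_a1107e_nt.ExponentBound
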