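import Pool.Agent.LibHall.LangFour
import Pool.Agent.LibHL18.Final

namespace Pool.Agent.Results.MP_a1107e_nt.NearSquares

open Pool.Agent.LibHall

lemma one_le_max {A B : ℤ} (hns : 4 * A ^ 3 + 27 * B ^ 2 ≠ 0) : 1 ≤ max |A| |B| := by
  by_contra hcon
  push Not at hcon
  have h1 : |A| < 1 := lt_of_le_of_lt (le_max_left _ _) hcon
  have h2 : |B| < 1 := lt_of_le_of_lt (le_max_right _ _) hcon
  have h3 : A = 0 := Int.abs_lt_one_iff.mp h1
  have h4 : B = 0 := Int.abs_lt_one_iff.mp h2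
  apply hns
  rw [h3, h4]; norm_num

lemma general {A B x y p q : ℤ} (hns : 4 * A ^ 3 + 27 * B ^ 2 ≠ 0)
    (hc : y ^ 2 = x ^ 3 + A * x + B) (hx : 0 < x) (hp : 0 < p) (hq : 0 < q) (hpq : IsCoprime p q)
    (h : 2 * |p ^ 2 - x * q ^ 2| ^ 3 ≤ p ^ 2) :
    x ^ 2 ≤ 16384 * (max |A| |B|) ^ 3 * max (max |A| |B|) (q ^ 8) :=
  lang_near (y := |y|) hx hp hq (abs_nonneg y) hpq (one_le_max hns) (le_max_left _ _)
    (le_max_right _ _) hns (by rw [sq_abs]; exact hc) h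

lemma near {A B x y t : ℤ} (hns : 4 * A ^ 3 + 27 * B ^ 2 ≠ 0)
    (hc : y ^ 2 = x ^ 3 + A * x + B) (h : 2 * |x - t ^ 2| ^ 3 ≤ t ^ 2) :
    max |x| |y| ≤ 1500 * (max |A| |B|) ^ 3 := by
  have hN := one_le_max hns
  have hA := le_max_left |A| |B|
  have hB := le_max_right |A| |B|
  obtain ⟨N, hNdef⟩ : ∃ N : ℤ, N = max |A| |B| := ⟨_, rfl⟩
  rw [← hNdef] at hN hA hB ⊢
  have hA' := abs_le.mp hA
  have hB' := abs_le.mp hB
  have hN3 : N ≤ N ^ 3 := le_self_pow₀ hN (by norm_num)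
  rcases eq_or_ne t 0 with ht | ht
  · rw [ht] at h
    have h1 : |x - 0 ^ 2| = 0 := by
      by_contra hcon
      have h2 : 0 < |x - 0 ^ 2| := lt_of_le_of_ne (abs_nonneg _) (Ne.symm hcon)
      have h3 : 0 < |x - 0 ^ 2| ^ 3 := by positivity
      norm_num at h
      norm_num at h3
      omega
    have hx0 : x = 0 := by
      have := abs_eq_zero.mp h1
      linarith
    rw [hx0] at hc
    have h2 : |y| ≤ N := by
      have h3 : |y| ≤ |y| ^ 2 := by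
        rcases eq_or_ne y 0 with h0 | h0
        · rw [h0]; simp
        · exact le_self_pow₀ (Int.one_le_abs h0) (by norm_num)
      rw [sq_abs] at h3
      linarith
    rw [hx0]
    refine max_le ?_ ?_
    · simp; positivity
    · linarith
  · have ht1 : 1 ≤ |t| := Int.one_le_abs ht
    have ht2 : t ^ 2 = |t| ^ 2 := (sq_abs t).symm
    have htt : |t| ≤ |t| ^ 2 := le_self_pow₀ ht1 (by norm_num)
    have hx : 0 < x := by
      by_contra hcon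
      push Not at hcon
      have h1 : t ^ 2 ≤ |x - t ^ 2| := by
        have := neg_abs_le (x - t ^ 2)
        linarith
      have h2 : 1 ≤ t ^ 2 := by rw [ht2]; exact one_le_pow₀ ht1
      have h3 : t ^ 2 ≤ |x - t ^ 2| ^ 3 := h1.trans (le_self_pow₀ (h2.trans h1) (by norm_num))
      linarith
    have h1 := general (p := |t|) (q := 1) hns hc hx (by omega) one_pos isCoprime_one_right (by
      have : |t| ^ 2 - x * 1 ^ 2 = -(x - t ^ 2) := by rw [← ht2]; ring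
      rw [this, abs_neg, ← ht2]
      exact h)
    rw [← hNdef, one_pow, max_eq_left hN] at h1
    have h2 : x ≤ 128 * N ^ 2 := by
      have h3 : x ^ 2 ≤ (128 * N ^ 2) ^ 2 := by
        calc x ^ 2 ≤ 16384 * N ^ 3 * N := h1
          _ = _ := by ring
      exact (sq_le_sq₀ hx.le (by positivity)).mp h3
    have h3 : y ^ 2 ≤ (1449 * N ^ 3) ^ 2 := by
      have h4 : x ^ 3 ≤ (128 * N ^ 2) ^ 3 := pow_le_pow_left₀ hx.le h2 3
      have h5 : A * x ≤ N * (128 * N ^ 2) := by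
        calc A * x ≤ N * x := by gcongr; exact hA'.2
          _ ≤ _ := by gcongr
      have h6 : N ^ 3 * 1 ≤ N ^ 3 * N ^ 3 := by
        gcongr
        exact one_le_pow₀ hN
      rw [hc]
      nlinarith
    have h4 : |y| ≤ 1449 * N ^ 3 := abs_le_of_sq_le_sq h3 (by positivity)
    refine max_le ?_ ?_
    · rw [abs_of_pos hx]
      have h5 : N ^ 2 ≤ N ^ 3 := pow_le_pow_right₀ hN (by norm_num)
      have h6 : 0 < N ^ 2 := by positivity
      linarith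
    · have h6 : 0 < N ^ 3 := by positivity
      linarith

lemma general_four {A B x y p q : ℤ} (hns : 4 * A ^ 3 + 27 * B ^ 2 ≠ 0)
    (hc : y ^ 2 = x ^ 3 + A * x + B) (hx : 0 < x) (hp : 0 < p) (hq : 0 < q) (hpq : IsCoprime p q)
    (h : 8 * (p ^ 2 - x * q ^ 2) ^ 4 ≤ p ^ 3) :
    p ≤ 2000000 * (max |A| |B|) ^ 4 * q ^ 16 :=
  lang_four (y := |y|) hx hp hq (abs_nonneg y) hpq (one_le_max hns) (le_max_left _ _)
    (le_max_right _ _) hns (by rw [sq_abs]; exact hc) h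

lemma near_four {A B x y t : ℤ} (hns : 4 * A ^ 3 + 27 * B ^ 2 ≠ 0)
    (hc : y ^ 2 = x ^ 3 + A * x + B) (h : 8 * (x - t ^ 2) ^ 4 ≤ |t| ^ 3) :
    max |x| |y| ≤ 10 ^ 20 * (max |A| |B|) ^ 12 := by
  rcases eq_or_ne t 0 with ht | ht
  · have h1 := near (t := t) hns hc (by
      rw [ht] at h ⊢
      have h2 : x ^ 4 ≤ 0 := by
        norm_num at h
        linarith
      have h3 : x = 0 := by
        have h4 : x ^ 4 = 0 := le_antisymm h2 (by positivity)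
        exact pow_eq_zero_iff (by norm_num) |>.mp h4
      rw [h3]; norm_num)
    refine h1.trans ?_
    have hN := one_le_max hns
    have h2 : (max |A| |B|) ^ 3 ≤ (max |A| |B|) ^ 12 := pow_le_pow_right₀ hN (by norm_num)
    have h3 : 0 < (max |A| |B|) ^ 3 := by positivity
    linarith
  · have hN := one_le_max hns
    have hA := le_max_left |A| |B|
    have hB := le_max_right |A| |B|
    obtain ⟨N, hNdef⟩ : ∃ N : ℤ, N = max |A| |B| := ⟨_, rfl⟩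
    rw [← hNdef] at hN hA hB ⊢
    have hA' := abs_le.mp hA
    have hB' := abs_le.mp hB
    have ht1 : 1 ≤ |t| := Int.one_le_abs ht
    have ht2 : t ^ 2 = |t| ^ 2 := (sq_abs t).symm
    obtain ⟨p, hp⟩ : ∃ p : ℤ, p = |t| := ⟨_, rfl⟩
    rw [← hp] at ht1 ht2 h
    rw [ht2] at h
    have hx : 0 < x := by
      by_contra hcon
      push Not at hcon
      have h1 : (p ^ 2) ^ 4 ≤ (x - p ^ 2) ^ 4 := by
        have h2 : (p ^ 2) ^ 4 ≤ (p ^ 2 - x) ^ 4 := pow_le_pow_left₀ (by positivity) (by linarith) 4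
        have h3 : (p ^ 2 - x) ^ 4 = (x - p ^ 2) ^ 4 := by ring
        linarith
      have h2 : p ^ 3 ≤ p ^ 8 := pow_le_pow_right₀ ht1 (by norm_num)
      have h3 : 0 < p ^ 3 := by positivity
      have h4 : (p ^ 2) ^ 4 = p ^ 8 := by ring
      linarith
    have h1 := general_four (p := p) (q := 1) hns hc hx (by omega) one_pos isCoprime_one_right (by
      have : (p ^ 2 - x * 1 ^ 2) ^ 4 = (x - p ^ 2) ^ 4 := by ring
      rw [this]
      exact h)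
    rw [← hNdef, one_pow, mul_one] at h1
    have h2 : x ≤ 2 * p ^ 2 := by
      by_contra hcon
      push Not at hcon
      have h3 : (p ^ 2) ^ 4 ≤ (x - p ^ 2) ^ 4 := pow_le_pow_left₀ (by positivity) (by linarith) 4
      have h4 : p ^ 3 ≤ p ^ 8 := pow_le_pow_right₀ ht1 (by norm_num)
      have h5 : 0 < p ^ 3 := by positivity
      have h6 : (p ^ 2) ^ 4 = p ^ 8 := by ring
      linarith
    have h3 : x ≤ 8 * 10 ^ 12 * N ^ 8 := by
      have h4 : p ^ 2 ≤ (2000000 * N ^ 4) ^ 2 := pow_le_pow_left₀ (by omega) h1 2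
      have h5 : (2000000 * N ^ 4) ^ 2 = 4 * 10 ^ 12 * N ^ 8 := by ring
      linarith
    have h4 : y ^ 2 ≤ (10 ^ 20 * N ^ 12) ^ 2 := by
      have h5 : x ^ 3 ≤ (8 * 10 ^ 12 * N ^ 8) ^ 3 := pow_le_pow_left₀ hx.le h3 3
      have h6 : A * x ≤ N * (8 * 10 ^ 12 * N ^ 8) := by
        calc A * x ≤ N * x := by gcongr; exact hA'.2
          _ ≤ _ := by gcongr
      have h7 : N ^ 9 ≤ N ^ 24 := pow_le_pow_right₀ hN (by norm_num)
      have h8 : N ≤ N ^ 24 := le_self_pow₀ hN (by norm_num)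
      have h9 : (8 * 10 ^ 12 * N ^ 8) ^ 3 = 512 * 10 ^ 36 * N ^ 24 := by ring
      have h10 : N * (8 * 10 ^ 12 * N ^ 8) = 8 * 10 ^ 12 * N ^ 9 := by ring
      have h11 : (10 ^ 20 * N ^ 12) ^ 2 = 10 ^ 40 * N ^ 24 := by ring
      have h12 : 0 < N ^ 24 := by positivity
      rw [hc, h11]
      linarith
    have h5 : |y| ≤ 10 ^ 20 * N ^ 12 := abs_le_of_sq_le_sq h4 (by positivity)
    refine max_le ?_ h5
    rw [abs_of_pos hx]
    have h6 : N ^ 8 ≤ N ^ 12 := pow_le_pow_right₀ hN (by norm_num)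
    have h7 : 0 < N ^ 8 := by positivity
    linarith

lemma sharp (K e : ℝ) (he : e < 3) : ∃ A B x y t : ℤ, 4 * A ^ 3 + 27 * B ^ 2 ≠ 0 ∧
    y ^ 2 = x ^ 3 + A * x + B ∧ 2 * |x - t ^ 2| ^ 3 ≤ t ^ 2 ∧
      K * ((max |A| |B| : ℤ) : ℝ) ^ e < ((max |x| |y| : ℤ) : ℝ) := by
  have h1 := tendsto_rpow_atTop (show (0 : ℝ) < 3 - e by linarith)
  obtain ⟨z, hz⟩ := Filter.eventually_atTop.mp (h1.eventually_gt_atTop K)
  obtain ⟨n, hn⟩ := exists_nat_ge (max z 16)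
  have hn16 : (16 : ℝ) ≤ n := (le_max_right _ _).trans hn
  have hnz : z ≤ (n : ℝ) := (le_max_left _ _).trans hn
  have hn16' : 16 ≤ n := by exact_mod_cast hn16
  obtain ⟨s, hs⟩ : ∃ s : ℤ, s = n := ⟨_, rfl⟩
  have hs16 : 16 ≤ s := by rw [hs]; exact_mod_cast hn16'
  have hmax : max |-(s ^ 2)| |(1 : ℤ)| = s ^ 2 := by
    rw [abs_neg, abs_of_nonneg (by positivity : 0 ≤ s ^ 2), abs_one]
    exact max_eq_left (one_le_pow₀ (by omega))
  refine ⟨-(s ^ 2), 1, s ^ 4 + 2 * s, s ^ 6 + 3 * s ^ 3 + 1, s ^ 2, ?_, by ring, ?_, ?_⟩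
  · have h2 : 16 ^ 6 ≤ s ^ 6 := pow_le_pow_left₀ (by norm_num) hs16 6
    intro h3
    have h4 : 4 * (-(s ^ 2)) ^ 3 + 27 * 1 ^ 2 = 27 - 4 * s ^ 6 := by ring
    rw [h4] at h3
    linarith
  · have h2 : s ^ 4 + 2 * s - (s ^ 2) ^ 2 = 2 * s := by ring
    rw [h2, abs_of_nonneg (by omega)]
    have h3 : 16 * s ^ 3 ≤ s * s ^ 3 := by gcongr
    nlinarith
  · rw [hmax]
    have hs0 : (0 : ℝ) < s := by
      have : (0 : ℤ) < s := by omega
      exact_mod_cast this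
    have hs1 : (1 : ℝ) ≤ s := by
      have : (1 : ℤ) ≤ s := by omega
      exact_mod_cast this
    have h2 : K < ((s : ℝ) ^ 2) ^ (3 - e) := by
      apply hz
      have h3 : (n : ℝ) = s := by rw [hs]; simp
      rw [h3] at hnz
      nlinarith
    have h3 : 0 < ((s : ℝ) ^ 2) ^ e := Real.rpow_pos_of_pos (by positivity) _
    have h4 : ((s : ℝ) ^ 2) ^ (3 - e) * ((s : ℝ) ^ 2) ^ e = s ^ 6 := by
      rw [← Real.rpow_add (by positivity)]
      have : (3 - e + e : ℝ) = ((3 : ℕ) : ℝ) := by push_cast; ring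
      rw [this, Real.rpow_natCast]; ring
    have h5 : K * ((s : ℝ) ^ 2) ^ e < s ^ 6 := by
      rw [← h4]
      exact mul_lt_mul_of_pos_right h2 h3
    have h6 : (s : ℝ) ^ 6 ≤ ((max |s ^ 4 + 2 * s| |s ^ 6 + 3 * s ^ 3 + 1| : ℤ) : ℝ) := by
      have h7 : s ^ 6 ≤ max |s ^ 4 + 2 * s| |s ^ 6 + 3 * s ^ 3 + 1| := by
        refine le_trans ?_ (le_max_right _ _)
        refine le_trans ?_ (le_abs_self _)
        have : 0 < s ^ 3 := by positivity
        linarith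
      exact_mod_cast h7
    push_cast at h5 h6 ⊢
    linarith

/-- The Hall–Lang inequality for integral points with `x` near a square. -/
theorem result :
    (∀ ε : ℝ, 0 < ε → ε ≤ 1 → ∃ K : ℝ, 1 ≤ K ∧ ∀ A B x y p q : ℤ,
      4 * A ^ 3 + 27 * B ^ 2 ≠ 0 → y ^ 2 = x ^ 3 + A * x + B → 1 ≤ q →
      |((p ^ 2 - x * q ^ 2 : ℤ) : ℝ)| ≤ |(p : ℝ)| ^ (1 - ε) →
      ((q ^ 2 * max |x| |y| : ℤ) : ℝ) ≤
        K * ((q ^ 6 * max |A| |B| : ℤ) : ℝ) ^ (7 / ε ^ 2) ∧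
      ((q : ℝ) ≤ |(x : ℝ)| ^ (ε ^ 2 / 84) →
        ((max |x| |y| : ℤ) : ℝ) ≤ K * ((max |A| |B| : ℤ) : ℝ) ^ (22 / ε ^ 2))) ∧
    (∀ A B x y t : ℤ, 4 * A ^ 3 + 27 * B ^ 2 ≠ 0 → y ^ 2 = x ^ 3 + A * x + B →
      2 * |x - t ^ 2| ^ 3 ≤ t ^ 2 → max |x| |y| ≤ 1500 * (max |A| |B|) ^ 3) ∧
    (∀ K e : ℝ, e < 3 → ∃ A B x y t : ℤ, 4 * A ^ 3 + 27 * B ^ 2 ≠ 0 ∧
      y ^ 2 = x ^ 3 + A * x + B ∧ 2 * |x - t ^ 2| ^ 3 ≤ t ^ 2 ∧
      K * ((max |A| |B| : ℤ) : ℝ) ^ e < ((max |x| |y| : ℤ) : ℝ)) ∧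
    (∀ A B x y t : ℤ, 4 * A ^ 3 + 27 * B ^ 2 ≠ 0 → y ^ 2 = x ^ 3 + A * x + B →
      8 * (x - t ^ 2) ^ 4 ≤ |t| ^ 3 → max |x| |y| ≤ 10 ^ 20 * (max |A| |B|) ^ 12) ∧
    (∀ A B x y p q : ℤ, 4 * A ^ 3 + 27 * B ^ 2 ≠ 0 → y ^ 2 = x ^ 3 + A * x + B →
      0 < x → 0 < p → 0 < q → IsCoprime p q →
      (2 * |p ^ 2 - x * q ^ 2| ^ 3 ≤ p ^ 2 →
        x ^ 2 ≤ 16384 * (max |A| |B|) ^ 3 * max (max |A| |B|) (q ^ 8)) ∧
      (8 * (p ^ 2 - x * q ^ 2) ^ 4 ≤ p ^ 3 → p ≤ 2000000 * (max |A| |B|) ^ 4 * q ^ 16)) := by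
  have old : Pool.Agent.LibHL18.Old := fun _ _ _ _ _ hns hc h => near hns hc h
  refine ⟨?_, old, sharp, ?_, ?_⟩
  · intro ε h0 h1
    obtain ⟨K₁, hK₁, H₁⟩ := Pool.Agent.LibHL18.near_rat ε h0 h1 old
    obtain ⟨K₂, hK₂, H₂⟩ := Pool.Agent.LibHL18.near_rat_power ε h0 h1 old
    refine ⟨max K₁ K₂, hK₁.trans (le_max_left _ _), ?_⟩
    intro A B x y p q hns hc hq hm
    have hN : 0 ≤ ((max |A| |B| : ℤ) : ℝ) := by
      have : (0 : ℤ) ≤ max |A| |B| := (abs_nonneg A).trans (le_max_left _ _)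
      exact_mod_cast this
    have hN' : 0 ≤ ((q ^ 6 * max |A| |B| : ℤ) : ℝ) := by
      have : (0 : ℤ) ≤ q ^ 6 * max |A| |B| :=
        mul_nonneg (by positivity) ((abs_nonneg A).trans (le_max_left _ _))
      exact_mod_cast this
    refine ⟨(H₁ A B x y p q hns hc hq hm).trans ?_, fun h =>
      (H₂ A B x y p q hns hc hq h hm).trans ?_⟩
    · exact mul_le_mul_of_nonneg_right (le_max_left _ _) (Real.rpow_nonneg hN' _)
    · exact mul_le_mul_of_nonneg_right (le_max_right _ _) (Real.rpow_nonneg hN _)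
  · exact fun _ _ _ _ _ hns hc h => near_four hns hc h
  · exact fun _ _ _ _ _ _ hns hc hx hp hq hpq => ⟨fun h => general hns hc hx hp hq hpq h,
      fun h => general_four hns hc hx hp hq hpq h⟩

end Pool.Agent.Results.MP_a1107e_nt.NearSquares
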