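import Pool.Agent.LibHall.PellUniform

namespace Pool.Agent.Results.MP_e734ed_nt.SmallPell

open Pool.Agent.LibHall

/-- Lower bounds of the strength of Hall's conjecture when `p ^ 2 - x * q ^ 2` is small. -/
theorem result (x y p q : ℤ) (hx : 0 < x) (hp : 0 < p) (hq : 0 < q) (hpq : IsCoprime p q)
    (hxy : y ^ 2 ≠ x ^ 3) :
    (2 * |p ^ 2 - x * q ^ 2| ^ 3 ≤ q ^ 2 →
      min ((x : ℝ) ^ (3 / 4 : ℝ) / 20) ((x : ℝ) ^ (3 / 2 : ℝ) / (6 * (q : ℝ) ^ 2)) ≤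
        |(y : ℝ) ^ 2 - (x : ℝ) ^ 3|) ∧
    (|p ^ 2 - x * q ^ 2| * p ≤ q ^ 2 →
      |p ^ 2 - x * q ^ 2| * x ^ 2 ≤ 4 * q ^ 2 * |y ^ 2 - x ^ 3|) ∧
    (p ^ 2 - x * q ^ 2 ≠ 0 → q ^ 4 ≤ x ^ 3 →
      (x : ℝ) ^ (1 / 2 : ℝ) / (20 * ((p : ℝ) ^ 2 - x * (q : ℝ) ^ 2) ^ 2) ≤
        |(y : ℝ) ^ 2 - (x : ℝ) ^ 3|) := by
  have hxr : (0 : ℝ) < x := by exact_mod_cast hx
  have e1 : (x : ℝ) ^ (3 / 2 : ℝ) = √(x : ℝ) ^ 3 := by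
    rw [Real.sqrt_eq_rpow, ← Real.rpow_natCast, ← Real.rpow_mul hxr.le]; norm_num
  have e2 : (x : ℝ) ^ (3 / 4 : ℝ) = √(√(x : ℝ) ^ 3) := by
    rw [← e1, Real.sqrt_eq_rpow, ← Real.rpow_mul hxr.le]; norm_num
  have e3 : (x : ℝ) ^ (1 / 2 : ℝ) = √(x : ℝ) := (Real.sqrt_eq_rpow _).symm
  rw [e1, e2, e3]
  have hk : |y| ^ 2 ≠ x ^ 3 := by rwa [sq_abs]
  have e4 : (y : ℝ) ^ 2 = ((|y| : ℤ) : ℝ) ^ 2 := by push_cast; rw [sq_abs]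
  have e5 : (p : ℝ) ^ 2 - x * (q : ℝ) ^ 2 = ((M x p q : ℤ) : ℝ) := by unfold M; push_cast; ring
  rw [e4, e5, ← sq_abs y]
  exact ⟨fun h => case_small hx hp hq (abs_nonneg y) hpq hk h,
    fun h => case_large hx hp hq (abs_nonneg y) hk h,
    fun h0 h => case_uniform hx hp hq (abs_nonneg y) hpq hk h0 h⟩

end Pool.Agent.Results.MP_e734ed_nt.SmallPell
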